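import Pool.Agent.MP_8be872_ag.H89.SlB

/-! Module SlF: the dg algebra of the slice. -/

namespace Pool.Agent.MP_8be872_ag.H89

open Finset H38 H56 H63 MvPolynomial
open scoped Matrix

section Words

variable {E O Γ : Type} [Fintype E] [Fintype O] [DecidableEq E] [DecidableEq O] [AddCommGroup Γ]

theorem gr_words {R : Γ → (E ⊕ O → ℕ) → Prop} (h0 : R 0 0)
    (h : ∀ a b μ ν, R a μ → R b ν → R (a + b) (μ + ν)) : Gr fun γ => words (R γ) :=
  ⟨one_mem_words h0, fun a b _ hm _ hm' => mul_mem_words hm hm' (h a b)⟩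

theorem ws_congr {c c' : E ⊕ O → Γ} {μ : E ⊕ O → ℕ} (h : ∀ g, μ g ≠ 0 → c g = c' g) :
    ws c μ = ws c' μ :=
  sum_congr rfl fun g _ => by
    by_cases e : μ g = 0
    · rw [e, zero_smul, zero_smul]
    · rw [h g e]

theorem odd_add' (a b : ℤ) : decide (Odd (a + b)) = xor (decide (Odd a)) (decide (Odd b)) := by
  simp only [Int.odd_add, ← Int.not_odd_iff_even]
  by_cases h : Odd a <;> by_cases h' : Odd b <;> simp [h, h']

end Words

variable {Q : Quiv} {w v D : Fin Q.n → ℕ} {J : Type}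

theorem ofM_gg {A : Type} (M : Kd Q → Nb Q w v D → Nb Q w v D → A) (t e : J → A) (k : Kd Q)
    (p q : Nb Q w v D) : ofM M t e (gg k p q) = M k p q := by
  rcases k with k | k <;> rfl

theorem gg_isRight (k : Kd Q) (p q : Nb Q w v D) :
    (gg (J := J) k p q).isRight = k.isRight := by
  rcases k with k | k <;> rfl

theorem gen_cases {P : Ix Q w v D J ⊕ Ix Q w v D J → Prop} (h : ∀ k p q, P (gg k p q))
    (ht : ∀ j, P (.inl (.inr j))) (he : ∀ j, P (.inr (.inr j))) : ∀ g, P g := by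
  rintro ((⟨τ, p, q⟩ | j) | (⟨τ, p, q⟩ | j))
  exacts [h (.inl τ) p q, ht j, h (.inr τ) p q, he j]

theorem kdeg_odd (k : Kd Q) : decide (Odd (kdeg k)) = k.isRight := by
  rcases k with (ε | _ | _) | (ε | _ | _) <;> rfl

/-- The weight shift of a kind. -/
noncomputable def sw : Kd Q → G
  | .inl (.inl ε) => -arrWt Q ε
  | .inl (.inr true) => qq
  | .inl (.inr false) => hb + qq
  | .inr (.inl ε) => -arrWt Q ε + qq
  | .inr (.inr true) => 0
  | .inr (.inr false) => hb

theorem wt_gg (x : Nb Q w v D → G) (φ : J → G) (k : Kd Q) (p q : Nb Q w v D) :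
    wt x φ (gg k p q) = x q - x p + sw k := by
  rcases k with (ε | _ | _) | (ε | _ | _) <;>
    simp only [wt, ofM, gg, Sum.map_inl, Sum.map_inr, sw] <;> abel

theorem sw_x (o : Option (Fin Q.ne)) :
    sw (kx (o, true)) + sw (kx (o, false)) = sw (Q := Q) ke + sw (Q := Q) kc := by
  rcases o with _ | e <;> simp only [sw, arrWt, hb] <;> abel

variable [Fintype J] [DecidableEq J] {d : Bas Q v → ℕ} {lab : Bas Q D → Bas Q v × ℕ}

/-- The generators as matrix entries. -/
noncomputable abbrev yg : Kd Q → Nb Q w v D → Nb Q w v D → OpQ Q w v D J :=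
  fun k p q => gn (gg k p q)

theorem dS_pos {k : Kd Q} {p q : Nb Q w v D} (h : shS lab k p q) :
    dS (J := J) lab (gg k p q) = Phi Q (YS lab yg) k p q :=
  (ofM_gg _ _ _ k p q).trans (if_pos h)

theorem dS_neg {k : Kd Q} {p q : Nb Q w v D} (h : ¬ shS lab k p q) :
    dS (J := J) lab (gg k p q) = 0 :=
  (ofM_gg _ _ _ k p q).trans (if_neg h)

theorem dS_mem {P : (Ix Q w v D J ⊕ Ix Q w v D J) → Submodule ℂ (OpQ Q w v D J)}
    (h : ∀ k p q, shS lab k p q → Phi Q (YS lab yg) k p q ∈ P (gg k p q)) :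
    ∀ g, dS lab g ∈ P g := by
  refine gen_cases (fun k p q => ?_) (fun j => zero_mem _) fun j => zero_mem _
  by_cases e : shS lab k p q
  · rw [dS_pos e]
    exact h k p q e
  · rw [dS_neg e]
    exact zero_mem _

theorem alS_gg {k : Kd Q} {p q : Nb Q w v D} : AlS (J := J) lab (gg k p q) ↔ shS lab k p q :=
  (ofM_gg _ _ _ k p q).to_iff

theorem kind_gg {U : Kd Q → Prop} {k : Kd Q} {p q : Nb Q w v D} :
    kind (J := J) U (gg k p q) ↔ U k :=
  (ofM_gg _ _ _ k p q).to_iff

/-- Degree, parity and support. -/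
noncomputable def dgS (lab : Bas Q D → Bas Q v × ℕ) (n : ℤ) : Submodule ℂ (OpQ Q w v D J) :=
  words fun μ => sup (AlS lab) μ ∧ ws cdG μ = n ∧ od μ = decide (Odd n)

theorem gr_dgS : Gr (dgS (w := w) (J := J) lab) :=
  gr_words ⟨fun _ h => absurd rfl h, ws_zero _, od_zero⟩ fun a b μ ν h h' =>
    ⟨sup_add.2 ⟨h.1, h'.1⟩, by rw [ws_add, h.2.1, h'.2.1], by rw [od_add, h.2.2, h'.2.2, odd_add']⟩

theorem dg_YS (k : Kd Q) (p q : Nb Q w v D) : YS lab yg k p q ∈ dgS (J := J) lab (kdeg k) ∧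
    Phi Q (YS lab yg) k p q ∈ dgS (J := J) lab (kdeg k + 1) := by
  have h := hm_YS (lab := lab) (y := yg) (x := fun _ : Nb Q w v D => (0 : ℤ)) (s := kdeg)
    (gr_dgS (J := J) (lab := lab)) (fun _ _ _ => rfl) fun k p q e => gn_mem_words
      ⟨sup_single.2 (alS_gg.2 e), by rw [ws_single, sub_self, zero_add]; exact ofM_gg _ _ _ k p q,
        by rw [od_single, gg_isRight, sub_self, zero_add, kdeg_odd]⟩
  have h' := hm_Phi gr_dgS h rfl (fun _ => rfl) (fun _ => rfl) k p q
  have h'' := h k p q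
  simp only [sub_self, zero_add] at h' h''
  exact ⟨h'', h'⟩

theorem wt_YS (hl : IsLab d lab) (σ : Bas Q v ≃ Bas Q v) (φ : J → G) (k : Kd Q)
    (p q : Nb Q w v D) :
    YS lab yg k p q ∈ words (fun μ => ws (wt (xs σ d lab) φ) μ = wt (xs σ d lab) φ (gg k p q)) ∧
    Phi Q (YS lab yg) k p q ∈
      words fun μ => ws (wt (xs σ d lab) φ) μ = wt (xs σ d lab) φ (gg k p q) := by
  have hS : Gr fun γ => words fun μ => ws (wt (w := w) (xs σ d lab) φ) μ = γ :=
    gr_words (ws_zero _) fun a b μ ν h h' => by rw [ws_add, h, h']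
  have h := hm_YS (lab := lab) (y := yg) (x := xs σ d lab) (s := sw) hS
    (fun _ _ e => (al0_data hl σ e).2.2) fun k p q e => gn_mem_words (by rw [ws_single, wt_gg])
  have h' := hm_Phi hS h (add_zero _).symm (fun _ => (add_zero _).symm) sw_x k p q
  rw [wt_gg]
  exact ⟨h k p q, by rwa [show sw k + sw (Q := Q) kc = sw k from add_zero _] at h'⟩

theorem dS_odd (g : Ix Q w v D J ⊕ Ix Q w v D J) :
    dS lab g ∈ words fun μ => sup (AlS lab) μ ∧ ws cdG μ = cdG g + 1 ∧ od μ = !g.isRight :=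
  dS_mem (P := fun g => words fun μ => sup (AlS lab) μ ∧ ws cdG μ = cdG g + 1 ∧ od μ = !g.isRight)
    (fun k p q _ => words_le (fun μ h => ⟨h.1, h.2.1.trans (by rw [cdG, ofM_gg]), by
      rw [h.2.2, odd_add', kdeg_odd, gg_isRight]
      cases k.isRight <;> rfl⟩) (dg_YS k p q).2) g

theorem d_gen (k : Kd Q) (p q : Nb Q w v D) (e : shS lab k p q) :
    (if k.isRight then vf (dS lab) * yg k p q + yg k p q * vf (dS lab)
      else vf (dS lab) * yg k p q - yg k p q * vf (dS (J := J) lab)) = Phi Q (YS lab yg) k p q := by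
  have := vf_gn (s := true) (δ := dS (J := J) lab)
    (fun g => words_le (fun μ h => by rw [h.2.2, Bool.xor_true]) (dS_odd g)) (gg k p q)
  rw [dS_pos e, gg_isRight, Bool.true_and] at this
  rw [← this]
  cases k.isRight
  · rw [sg_false, one_smul, if_neg Bool.false_ne_true]
  · rw [sg_true_smul (R := OpQ Q w v D J), if_pos rfl, sub_neg_eq_add]

theorem om_mem {C : Submodule ℂ (OpQ Q w v D J)} (m : Bas Q D → ℤ)
    (h : ∀ p, YS lab yg kc p p ∈ C) : omS lab m ∈ C :=
  neg_mem (Submodule.sum_mem _ fun _ _ => Submodule.smul_mem _ _ (h _))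

theorem good (hD : DSqStmt) (hl : IsLab d lab) (σ : Bas Q v ≃ Bas Q v) {m : Bas Q D → ℤ}
    (hm : ∀ τ τ', τ.1 = τ'.1 → m τ = m τ') (φ : J → G) (f : J → MvPolynomial (Ix Q w v D J) ℂ)
    (hf : ∀ j, HomS σ d lab (f j) (φ j)) :
    Good (AlS lab) (wt (xs σ d lab) φ) (dS lab) (omS lab m) f where
  alT _ := id
  alE _ := id
  wtE _ := rfl
  dz := gen_cases (fun k p q h => dS_neg fun e => h (alS_gg.2 e)) (fun _ _ => rfl) fun _ _ => rfl
  dw g := words_le (fun _ h => ⟨h.1.1, h.2, h.1.2.2⟩) (words_and (dS_odd g) (dS_mem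
    (P := fun g => words fun μ => ws (wt (xs σ d lab) φ) μ = wt (xs σ d lab) φ g)
    (fun k p q _ => (wt_YS hl σ φ k p q).2) g))
  ow := om_mem m fun p => words_le (fun _ h => ⟨h.1.1, by
    rw [h.2, wt_gg, sub_self]
    exact add_zero _, h.1.2.2⟩) (words_and (dg_YS kc p p).1 (wt_YS hl σ φ kc p p).1)
  sq := by
    refine vf_sq (fun g => words_le (fun _ h => h.2.2) (dS_odd g)) (gen_cases (fun k p q => ?_)
      (fun j => ?_) fun j => ?_)
    · by_cases e : shS lab k p q
      · have := hD.2 Q w v D _ _ _ (YS_zero hl) (d_YS hl (d_gen (J := J))) k p q (shape_FP e.1)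
        rw [dS_pos e, gg_isRight]
        revert this
        cases k.isRight
        · rw [Bool.not_false, sg_true_smul (R := OpQ Q w v D J), if_neg Bool.false_ne_true]
          exact eq_neg_of_add_eq_zero_left
        · rw [Bool.not_true, sg_false, one_smul, if_pos rfl]
          exact eq_of_sub_eq_zero
      · rw [dS_neg e, mul_zero, zero_mul, smul_zero]
    · exact (mul_zero _).trans ((congrArg _ (zero_mul _)).trans (smul_zero _)).symm
    · exact (mul_zero _).trans ((congrArg _ (zero_mul _)).trans (smul_zero _)).symm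
  osq := by
    have h1 : ∀ p q : Nb Q w v D, YS lab yg kc p q ∈ words fun μ => od μ = true := fun p q =>
      words_le (fun _ h => h.2.2) (dg_YS (J := J) kc p q).1
    exact d_om hl d_gen hm fun p q r s =>
      (words_comm (h1 p q) (h1 r s)).trans (sg_true_smul (R := OpQ Q w v D J) _)
  fw j := mono_le (fun μ h => ⟨fun g hg => (h.1 g hg).1, by
    rw [ws_congr (c' := wt (xs σ d lab) (0 : J → G)), h.2]
    · exact (neg_neg _).symm
    · exact gen_cases (fun k p q _ => by rw [wt_gg, wt_gg]) (fun j e => (h.1 _ e).1.elim)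
        fun j e => rfl⟩) (hf j)

/-- The even matrices. -/
noncomputable def Y0 (lab : Bas Q D → Bas Q v × ℕ) :
    Kd Q → Matrix (Nb Q w v D) (Nb Q w v D) (OpQ Q w v D J) :=
  Sum.elim (fun τ => YS lab yg (.inl τ)) fun _ => 0

theorem map_YSpol (k : Kd Q) : (YSpol (w := w) (J := J) lab k).map mulA.toRingHom = Y0 lab k := by
  have h1 : ∀ τ, bs lab (fun k p q => (gg k p q).elim X 0) (.inr τ) =
      (0 : Matrix (Nb Q w v D) _ (MvPolynomial (Ix Q w v D J) ℂ)) := fun τ => by
    ext1 p q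
    exact ite_self _
  have h2 : ∀ τ, (bs lab (fun k p q => (gg k p q).elim X 0) (.inl τ)).map mulA.toRingHom =
      bs lab (yg (w := w) (J := J)) (.inl τ) := fun τ => by
    ext1 p q
    by_cases e : shS lab (.inl τ) p q
    · rw [Matrix.map_apply, bs_pos e, bs_pos e]
      rfl
    · rw [Matrix.map_apply, bs_neg e, bs_neg e, map_zero]
  rcases k with τ | τ
  · by_cases e : (.inl τ : Kd Q) = ka
    · rw [YSpol, Y0, Sum.elim_inl, e, YS_ka, YS_ka, ← h2, Matrix.map_add _ (map_add _)]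
      congr 1
      ext1 p q
      exact mulA.commutes _
    · rw [YSpol, Y0, Sum.elim_inl, YS_ne e Sum.inl_ne_inr, YS_ne e Sum.inl_ne_inr, h2]
  · have h3 : YSpol (w := w) (J := J) lab (.inr τ) = 0 := by
      by_cases e : (.inr τ : Kd Q) = kc
      · rw [YSpol, e, YS_kc, h1]
        exact sum_eq_zero fun i _ => by rw [mul_zero, zero_mul]
      · rw [YSpol, YS_ne Sum.inr_ne_inl e, h1]
    rw [h3]
    exact Matrix.map_zero _ (map_zero _)

theorem mul_rS (hD : DSqStmt) {k : Kd Q} {p q : Nb Q w v D} (h : shS lab k p q) :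
    mul (rS lab (gg k p q)) = Phi Q (Y0 (J := J) lab) k p q := by
  have := congrFun (congrFun (hD.1 Q _ _ (OpQ Q w v D J) mulA.toRingHom
    (YSpol (w := w) (J := J) lab) k) p) q
  simp only [map_YSpol] at this
  rw [← this, rS, ofM_gg, if_pos h]
  rfl

theorem rS_mem (hD : DSqStmt) (g : Ix Q w v D J ⊕ Ix Q w v D J) :
    mul (rS lab g) ∈ words (sup (E0S lab)) := by
  have h0 : (mul 0 : OpQ Q w v D J) ∈ words (sup (E0S lab)) := by
    rw [show (mul 0 : OpQ Q w v D J) = 0 from map_zero mulA]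
    exact zero_mem _
  refine gen_cases (P := fun g => mul (rS lab g) ∈ words (sup (E0S lab))) (fun k p q => ?_)
    (fun _ => h0) (fun _ => h0) g
  by_cases e : shS lab k p q
  swap
  · rw [rS, ofM_gg, if_neg e]
    exact h0
  have hS : Gr fun _ : ℤ => words (sup (E0S (w := w) (J := J) lab)) :=
    gr_words (fun _ h => absurd rfl h) fun _ _ _ _ h h' => sup_add.2 ⟨h, h'⟩
  have h1 : ∀ k, kdeg k = 0 → ∀ p q : Nb Q w v D, shS lab k p q →
      yg k p q ∈ words (sup (E0S (J := J) lab)) :=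
    fun k hk p q e => gn_mem_words (sup_single.2 ⟨alS_gg.2 e, kind_gg.2 hk⟩)
  have ha := hm_ka (x := fun _ => 0) (s := 0) hS (fun _ _ _ => rfl) (h1 ka rfl)
  have hx : ∀ ε, Hm (fun _ : ℤ => words (sup (E0S (w := w) (J := J) lab))) (fun _ => 0) 0
      (YS lab yg (kx ε)) := fun ε => by
    rw [YS_ne (by simp) Sum.inl_ne_inr]
    exact hm_bs (h1 _ rfl)
  rw [mul_rS hD e]
  rcases k with (ε | _ | _) | (ε | _ | _) <;>
    simp only [Phi, Y0, Sum.elim_inl, Sum.elim_inr, mul_zero, zero_mul, sub_zero, add_zero,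
      sum_const_zero, neg_zero, Matrix.zero_apply, zero_mem]
  · exact (((hx ε).mul hS ha rfl).sub (ha.mul hS (hx ε) rfl)) p q
  · exact Hm.sum (fun o _ => ((hx _).mul hS (hx _) rfl).sub ((hx _).mul hS (hx _) rfl)) p q

theorem eqs (hD : DSqStmt) (m : Bas Q D → ℤ) :
    Eqs (AlS lab) (dS (w := w) (J := J) lab) (omS lab m) (fun g => AlS lab g ∧ kind (· = kc) g)
      (E0S lab) (fun g => AlS lab g ∧ kind (fun k => kdeg k = -1) g) (rS lab) := by
  classical
  set gh : Ix Q w v D J ⊕ Ix Q w v D J → Prop := fun g => AlS lab g ∧ kind (· = kc) g with hgh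
  have hS : Gr fun n : ℤ => words fun μ => n ≤ cnt gh μ :=
    gr_words (Int.natCast_nonneg _) fun _ _ _ _ h h' => by
      rw [cnt_add, Nat.cast_add]
      exact add_le_add h h'
  have h0 : ∀ k, Hm (fun n : ℤ => words fun μ => n ≤ cnt gh μ) (fun _ => 0) 0 (YS lab yg k) :=
    fun k p q => words_le (fun _ _ => Int.natCast_nonneg _) (dg_YS k p q).1
  have h1 : Hm (fun n : ℤ => words fun μ => n ≤ cnt gh μ) (fun _ => 0) 1 (YS lab yg kc) :=
    hm_kc (s := 0) hS (fun _ _ _ => rfl) (fun p q _ => gn_mem_words (Int.natCast_nonneg _))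
      fun p q e => gn_mem_words (by
        rw [cnt_single, if_pos ⟨alS_gg.2 e, kind_gg.2 rfl⟩]
        exact le_rfl)
  have h2 : ∀ {M}, Hm (fun n : ℤ => words fun μ => n ≤ cnt gh μ) (fun _ => 0) 1 M →
      ∀ p q : Nb Q w v D, M p q ∈ words (has gh) := fun h p q =>
    words_le (fun μ e => cnt_ne_zero.1 (by simp only at e; omega)) (h p q)
  have h3 := fun k => (h0 k).mul hS h1 (zero_add _)
  have h4 := fun k => h1.mul hS (h0 k) (add_zero _)
  refine ⟨gen_cases (fun k p q h => ⟨h.1, ?_⟩) (fun _ h => h.1.elim) fun _ h => h.1.elim,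
    gen_cases (fun k p q h => ⟨h.1, ?_⟩) (fun _ h => h.1.elim) fun _ h => h.1.elim,
    gen_cases (fun k p q h => ⟨h.1, ?_, fun e => ?_⟩) (fun _ h => h.1.elim) fun _ h => h.1.elim,
    dS_mem (P := fun g => words fun μ => cnt gh (Pi.single g 1) ≤ cnt gh μ) fun k p q e => ?_,
    gen_cases (fun k p q h => ?_) (fun _ h => h.1.elim) fun _ h => h.1.elim,
    om_mem m fun p => h2 h1 p p,
    gen_cases (fun k p q h => ?_) (fun _ h => h.1.elim) fun _ h => h.1.elim, fun g => ?_⟩
  · rw [kind_gg.1 h.2]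
    rfl
  · have := kind_gg.1 h.2
    rcases k with k | (ε | _ | _)
    · rfl
    all_goals simp [kdeg] at this
  · rw [gg_isRight, ← kdeg_odd, kind_gg.1 h.2]
    decide
  · have := kind_gg.1 h.2
    rw [kind_gg.1 e.2] at this
    simp [kdeg] at this
  · rw [cnt_single]
    split_ifs with h
    · obtain rfl := kind_gg.1 h.2
      exact words_le (fun μ e => by omega) ((h4 kc).neg p q)
    · exact words_le (fun _ _ => Nat.zero_le _) (dg_YS k p q).2
  · have := kind_gg.1 h.2
    rw [dS_pos (alS_gg.1 h.1)]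
    rcases k with (ε | _ | _) | (ε | _ | _)
    · exact h2 ((h3 _).sub (h4 _)) p q
    · simp [kdeg] at this
    · exact h2 ((h3 _).sub (h4 _)) p q
    all_goals simp [kdeg] at this
  · have := kind_gg.1 h.2
    rw [dS_pos (alS_gg.1 h.1), mul_rS hD (alS_gg.1 h.1), ← Matrix.sub_apply]
    rcases k with (ε | _ | _) | (ε | _ | _)
    any_goals simp [kdeg] at this
    all_goals
      simp only [Phi, Y0, Sum.elim_inl, Sum.elim_inr, mul_zero, sub_zero]
      rw [sub_right_comm, sub_sub_cancel_left]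
      exact h2 ((h4 _).neg.sub (h3 _)) p q
  · rw [← mul_one_eq]
    exact words_one_mem (rS_mem hD g)

/-- Module SlF. -/
theorem slF : DSqStmt → SlFStmt := fun hD _ _ _ _ _ _ _ σ _ _ m hl _ hm =>
  ⟨good hD hl σ hm, eqs hD m, fun g => words_le (fun _ h => h.2.1) (dS_odd g),
    om_mem m fun p => words_le (fun _ h => h.2.1) (dg_YS kc p p).1, d_YS hl d_gen⟩

end Pool.Agent.MP_8be872_ag.H89
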