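import Pool.Agent.MP_8be872_ag.H63.SpecC
import Pool.Agent.MP_8be872_ag.H63.ApiB

/-! Homogeneous matrices and the matrices on the slice. -/

namespace Pool.Agent.MP_8be872_ag.H89

open Finset H38 H56 H63 MvPolynomial
open scoped Matrix

section Graded

variable {Γ A N : Type} [AddCommGroup Γ] [Ring A] [Algebra ℂ A]

/-- A multiplicative family of subspaces. -/
structure Gr (S : Γ → Submodule ℂ A) : Prop where
  one : (1 : A) ∈ S 0
  mul : ∀ a b, ∀ m ∈ S a, ∀ m' ∈ S b, m * m' ∈ S (a + b)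

/-- Homogeneous matrices. -/
def Hm (S : Γ → Submodule ℂ A) (x : N → Γ) (s : Γ) (M : Matrix N N A) : Prop :=
  ∀ p q, M p q ∈ S (x q - x p + s)

variable {S : Γ → Submodule ℂ A} {x : N → Γ} {s s' t : Γ} {M M' : Matrix N N A}

theorem Hm.add (h : Hm S x s M) (h' : Hm S x s M') : Hm S x s (M + M') :=
  fun p q => add_mem (h p q) (h' p q)

theorem Hm.sub (h : Hm S x s M) (h' : Hm S x s M') : Hm S x s (M - M') :=
  fun p q => sub_mem (h p q) (h' p q)

theorem Hm.neg (h : Hm S x s M) : Hm S x s (-M) := fun p q => neg_mem (h p q)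

theorem Hm.sum {ι : Type} {T : Finset ι} {F : ι → Matrix N N A} (h : ∀ i ∈ T, Hm S x s (F i)) :
    Hm S x s (∑ i ∈ T, F i) := fun p q => by
  rw [Matrix.sum_apply]
  exact Submodule.sum_mem _ fun i hi => h i hi p q

theorem Hm.mul [Fintype N] (hS : Gr S) (h : Hm S x s M) (h' : Hm S x s' M') (e : s + s' = t) :
    Hm S x t (M * M') := fun p q => by
  rw [Matrix.mul_apply]
  refine Submodule.sum_mem _ fun r _ => ?_
  have := hS.mul _ _ _ (h p r) _ (h' r q)
  rwa [show x r - x p + s + (x q - x r + s') = x q - x p + t by rw [← e]; abel] at this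

theorem Hm.pow [Fintype N] [DecidableEq N] (hS : Gr S) (h : Hm S x s M) (i : ℕ) :
    Hm S x (i • s) (M ^ i) := by
  induction i with
  | zero =>
    intro p q
    rw [pow_zero, Matrix.one_apply]
    split_ifs with e
    · rw [e, sub_self, zero_smul, add_zero]
      exact hS.one
    · exact zero_mem _
  | succ i ih =>
    rw [pow_succ]
    exact ih.mul hS h (succ_nsmul s i).symm

theorem hm_map (hS : Gr S) {B : Matrix N N ℂ} (h : ∀ p q, B p q ≠ 0 → x q - x p + s = 0) :
    Hm S x s (B.map (algebraMap ℂ A)) := fun p q => by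
  rw [Matrix.map_apply]
  by_cases e : B p q = 0
  · rw [e, map_zero]
    exact zero_mem _
  · rw [h p q e, Algebra.algebraMap_eq_smul_one]
    exact Submodule.smul_mem _ _ hS.one

/-- Everything in degree zero. -/
def zS (A : Type) [Ring A] [Algebra ℂ A] (n : ℤ) : Submodule ℂ A := ⨅ _ : n ≠ 0, ⊥

theorem mem_zS {n : ℤ} {m : A} : m ∈ zS A n ↔ (n ≠ 0 → m = 0) := by
  simp only [zS, Submodule.mem_iInf, Submodule.mem_bot]

theorem gr_zS : Gr (zS A) := ⟨mem_zS.2 fun h => absurd rfl h, fun a b m hm m' hm' =>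
  mem_zS.2 fun h => by
    by_cases e : a = 0
    · rw [mem_zS.1 hm' fun e' => h (by rw [e, e', add_zero]), mul_zero]
    · rw [mem_zS.1 hm e, zero_mul]⟩

theorem hm_Phi {Q : Quiv} [Fintype N] (hS : Gr S) {Y : Kd Q → Matrix N N A} {s : Kd Q → Γ}
    (h : ∀ k, Hm S x (s k) (Y k)) (h1 : s ke + s ka = s kz + s kc)
    (h2 : ∀ ε, s (kx ε) + s ka = s (kt ε) + s kc)
    (h3 : ∀ o, s (kx (o, true)) + s (kx (o, false)) = s ke + s kc) (k : Kd Q) :
    Hm S x (s k + s kc) (Phi Q Y k) := by
  have c1 : ∀ k, s kc + s k = s k + s kc := fun k => add_comm _ _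
  have h4 : ∀ o b, s (kx (o, b)) + s (kt (o, !b)) = s kz + s kc := fun o b => by
    have e1 := h2 (o, !b)
    have e2 : s (kx (o, b)) + s (kx (o, !b)) = s ke + s kc := by
      cases b
      · rw [add_comm]
        exact h3 o
      · exact h3 o
    rw [← h1, ← add_left_inj (s kc), add_assoc, ← e1, ← add_assoc, e2]
    abel
  rcases k with (ε | _ | _) | (ε | _ | _)
  · exact ((h _).mul hS (h kc) rfl).sub ((h kc).mul hS (h _) (c1 _))
  · refine (((((h ke).mul hS (h ka) h1).sub ((h ka).mul hS (h ke) ((add_comm _ _).trans h1))).sub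
      (Hm.sum fun o _ => ?_)).add ((h _).mul hS (h kc) rfl)).sub ((h kc).mul hS (h _) (c1 _))
    exact ((((h _).mul hS (h _) (h4 o true)).add ((h _).mul hS (h _)
      ((add_comm _ _).trans (h4 o false)))).sub ((h _).mul hS (h _) (h4 o false))).sub
      ((h _).mul hS (h _) ((add_comm _ _).trans (h4 o true)))
  · exact ((h _).mul hS (h kc) rfl).sub ((h kc).mul hS (h _) (c1 _))
  · exact ((((h _).mul hS (h ka) (h2 ε)).sub ((h ka).mul hS (h _)
      ((add_comm _ _).trans (h2 ε)))).sub ((h kc).mul hS (h _) (c1 _))).sub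
      ((h _).mul hS (h kc) rfl)
  · exact ((Hm.sum fun o _ => ((h _).mul hS (h _) (h3 o)).sub ((h _).mul hS (h _)
      ((add_comm _ _).trans (h3 o)))).sub ((h kc).mul hS (h _) (c1 _))).sub
      ((h _).mul hS (h kc) rfl)
  · exact ((h kc).mul hS (h kc) rfl).neg

end Graded

theorem ring_delta {R : Type} [Ring R] {b α c C d e : R} {n : ℕ} (hb : b ^ n = 0)
    (hC : C = c + b * C * α) (hce : c * e = 0) (hαe : α * e = α) (heb : e * b = b)
    (hdb : d * b = b * d) (hde : d * e = e * d) (hα : d * α - α * d = (α * C - C * α) * e)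
    (hΔ : (d * C + C * d + C * C) * e = d * C + C * d + C * C) : d * C + C * d + C * C = 0 := by
  have h1 : C * e = b * C * α := by
    rw [hC, add_mul, hce, zero_add, mul_assoc, hαe, ← hC]
  have h2 : C * (b * C * α) = b * C * α * (b * C * α) := by
    have : c * b = 0 := by rw [← heb, ← mul_assoc, hce, zero_mul]
    calc C * (b * C * α) = (c + b * C * α) * (b * C * α) := by rw [← hC]
      _ = c * b * (C * α) + b * C * α * (b * C * α) := by noncomm_ring
      _ = _ := by rw [this, zero_mul, zero_add]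
  have h3 : d * C + C * d + C * C = b * (d * C + C * d + C * C) * α := by
    have e1 : d * α = α * d + (α * (C * e) - C * (α * e)) := by
      rw [← mul_assoc, ← mul_assoc, ← sub_mul, ← hα, add_sub_cancel]
    calc d * C + C * d + C * C = (d * C + C * d + C * C) * e := hΔ.symm
      _ = d * (C * e) + C * (d * e) + C * (C * e) := by noncomm_ring
      _ = d * b * C * α + b * C * α * d + b * C * α * (b * C * α) := by
        rw [hde, ← mul_assoc C e, h1, h2]
        noncomm_ring
      _ = b * d * C * α + b * C * (α * d + (α * (C * e) - C * (α * e))) + b * C * C * α := by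
        rw [hdb, h1, hαe]
        noncomm_ring
      _ = _ := by
        rw [← e1]
        noncomm_ring
  generalize d * C + C * d + C * C = Δ at h3
  have h4 : ∀ i : ℕ, Δ = b ^ i * Δ * α ^ i := fun i => by
    induction i with
    | zero => simp
    | succ i ih =>
      rw [pow_succ, pow_succ']
      calc Δ = b ^ i * (b * Δ * α) * α ^ i := by rw [← h3, ← ih]
        _ = _ := by noncomm_ring
  rw [h4 n, hb, zero_mul, zero_mul]

variable {Q : Quiv} {w v D : Fin Q.n → ℕ} {A : Type} [Ring A] [Algebra ℂ A]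
  {d : Bas Q v → ℕ} {lab : Bas Q D → Bas Q v × ℕ} {y : Kd Q → Nb Q w v D → Nb Q w v D → A}

open Classical in
/-- The free entries. -/
noncomputable def bs (lab : Bas Q D → Bas Q v × ℕ) (y : Kd Q → Nb Q w v D → Nb Q w v D → A)
    (k : Kd Q) : Matrix (Nb Q w v D) (Nb Q w v D) A :=
  fun p q => if shS lab k p q then y k p q else 0

/-- The shift. -/
noncomputable def a0 (lab : Bas Q D → Bas Q v × ℕ) : Matrix (Nb Q w v D) (Nb Q w v D) A :=
  (al0 lab).map (algebraMap ℂ A)

/-- The projection to `T`. -/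
def eT : Matrix (Nb Q w v D) (Nb Q w v D) A := Matrix.diagonal fun p => if blk p = 0 then 1 else 0

theorem YS_ka : YS lab y ka = a0 lab + bs lab y ka := by
  unfold YS
  exact if_pos rfl

theorem YS_kc : YS lab y kc = ∑ i ∈ range (Fintype.card (Bas Q D) + 1),
    (a0 lab)ᵀ ^ i * bs lab y kc * YS lab y ka ^ i := by
  rw [YS_ka]
  unfold YS
  exact (if_neg Sum.inr_ne_inl).trans (if_pos rfl)

theorem YS_ne {k : Kd Q} (h1 : k ≠ ka) (h2 : k ≠ kc) : YS lab y k = bs lab y k := by
  unfold YS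
  exact (if_neg h1).trans (if_neg h2)

omit [Algebra ℂ A] in
theorem bs_pos {k : Kd Q} {p q : Nb Q w v D} (h : shS lab k p q) : bs lab y k p q = y k p q :=
  if_pos h

omit [Algebra ℂ A] in
theorem bs_neg {k : Kd Q} {p q : Nb Q w v D} (h : ¬ shS lab k p q) : bs lab y k p q = 0 :=
  if_neg h

section

variable {Γ : Type} [AddCommGroup Γ] {S : Γ → Submodule ℂ A} {x : Nb Q w v D → Γ}

theorem hm_bs {k : Kd Q} {s : Γ} (h : ∀ p q, shS lab k p q → y k p q ∈ S (x q - x p + s)) :
    Hm S x s (bs lab y k) := fun p q => by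
  by_cases e : shS lab k p q
  · rw [bs_pos e]
    exact h p q e
  · rw [bs_neg e]
    exact zero_mem _

theorem hm_a0T (hS : Gr S) {s : Γ} (h0 : ∀ p q, al0 lab p q ≠ 0 → x q - x p + s = 0) :
    Hm S x (-s) (a0 lab : Matrix _ _ A)ᵀ := by
  rw [a0, ← Matrix.transpose_map]
  refine hm_map hS fun p q e => ?_
  rw [← neg_eq_zero, ← h0 q p e]
  abel

theorem hm_ka (hS : Gr S) {s : Γ} (h0 : ∀ p q, al0 lab p q ≠ 0 → x q - x p + s = 0)
    (h : ∀ p q, shS lab ka p q → y ka p q ∈ S (x q - x p + s)) : Hm S x s (YS lab y ka) := by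
  rw [YS_ka]
  exact (hm_map hS h0).add (hm_bs h)

theorem hm_kc (hS : Gr S) {s t : Γ} (h0 : ∀ p q, al0 lab p q ≠ 0 → x q - x p + s = 0)
    (h : ∀ p q, shS lab ka p q → y ka p q ∈ S (x q - x p + s))
    (h' : ∀ p q, shS lab kc p q → y kc p q ∈ S (x q - x p + t)) : Hm S x t (YS lab y kc) := by
  rw [YS_kc]
  refine Hm.sum fun i _ => (((hm_a0T hS h0).pow hS i).mul hS (hm_bs h') rfl).mul hS
    ((hm_ka hS h0 h).pow hS i) ?_
  rw [smul_neg]
  abel

theorem hm_YS (hS : Gr S) {s : Kd Q → Γ} (h0 : ∀ p q, al0 lab p q ≠ 0 → x q - x p + s ka = 0)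
    (h : ∀ k p q, shS lab k p q → y k p q ∈ S (x q - x p + s k)) (k : Kd Q) :
    Hm S x (s k) (YS lab y k) := by
  by_cases h1 : k = ka
  · rw [h1]
    exact hm_ka hS h0 (h ka)
  by_cases h2 : k = kc
  · rw [h2]
    exact hm_kc hS h0 (h ka) (h kc)
  rw [YS_ne h1 h2]
  exact hm_bs (h k)

end

end Pool.Agent.MP_8be872_ag.H89
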