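import Pool.Agent.MP_8be872_ag.H89.SlA

/-! The differential of the dependent entries on the slice. -/

namespace Pool.Agent.MP_8be872_ag.H89

open Finset H38 H56 H63 MvPolynomial
open scoped Matrix

variable {Q : Quiv} {w v D : Fin Q.n → ℕ} {A : Type} [Ring A] [Algebra ℂ A]
  {d : Bas Q v → ℕ} {lab : Bas Q D → Bas Q v × ℕ} {y : Kd Q → Nb Q w v D → Nb Q w v D → A}
  {p q : Nb Q w v D}

theorem al0_ne (h : al0 lab p q ≠ 0) : ∃ τ, q = .inl τ ∧ hp lab p = some (lab τ) := by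
  rcases q with τ | q
  · exact ⟨τ, rfl, of_not_not fun e => h (if_neg e)⟩
  · exact absurd rfl h

theorem hp_inj (hl : IsLab d lab) {z : Bas Q v × ℕ} (h : hp lab p = some z)
    (h' : hp lab q = some z) : p = q := by
  rw [← h'] at h
  rcases p with τ | a | b <;> rcases q with τ' | a' | b' <;>
    simp only [hp, Option.some.injEq, Prod.mk.injEq, reduceCtorEq, Nat.add_right_cancel_iff,
      Nat.add_one_ne_zero, Nat.zero_ne_add_one, and_false, and_true] at h h'
  · rw [hl.inj (Prod.ext h.1 h.2)]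
  · rw [h]

theorem exists_pr (hl : IsLab d lab) (τ : Bas Q D) :
    ∃ p : Nb Q w v D, hp lab p = some (lab τ) := by
  have h := hl.lt τ
  rcases e : lab τ with ⟨a, _ | k⟩
  · exact ⟨.inr (.inl a), rfl⟩
  · rw [e] at h
    obtain ⟨τ', h'⟩ := hl.surj a k (Nat.lt_of_succ_lt h)
    exact ⟨.inl τ', by rw [hp, h']⟩

theorem hp_some (hl : IsLab d lab) (σ : Bas Q v ≃ Bas Q v) {a : Bas Q v} {k : ℕ}
    (h : hp lab p = some (a, k)) : vx p = a.1 ∧ blk p < 2 ∧ lv d lab p = d a - k ∧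
      xs σ d lab p = xV (σ a).1 (σ a).2 + lv d lab p • qq := by
  rcases p with τ | b | b <;> simp only [hp, Option.some.injEq, Prod.mk.injEq, reduceCtorEq] at h
  · obtain ⟨rfl, rfl⟩ := h
    exact ⟨(hl.vert τ).symm, Nat.zero_lt_two, by simp [lv], rfl⟩
  · obtain ⟨rfl, rfl⟩ := h
    exact ⟨rfl, Nat.one_lt_two, by simp [lv], rfl⟩

theorem al0_data (hl : IsLab d lab) (σ : Bas Q v ≃ Bas Q v) (h : al0 lab p q ≠ 0) :
    shape radP ka p q ∧ lv d lab q - lv d lab p + 1 = 0 ∧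
      xs σ d lab q - xs σ d lab p + qq = 0 := by
  obtain ⟨τ, rfl, e⟩ := al0_ne h
  obtain ⟨a1, a2, a3, a4⟩ := hp_some hl σ e
  obtain ⟨b1, b2, b3, b4⟩ := hp_some hl σ (p := (.inl τ : Nb Q w v D)) rfl
  have h1 : lv d lab (.inl τ : Nb Q w v D) - lv d lab p + 1 = 0 := by
    rw [a3, b3]
    push_cast
    ring
  refine ⟨⟨⟨a1.trans b1.symm, a2, b2⟩, rfl⟩, h1, ?_⟩
  rw [a4, b4, add_sub_add_left_eq_sub, ← sub_smul, ← add_one_zsmul, h1, zero_smul]

theorem a0T_pow (hl : IsLab d lab) :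
    (a0 lab : Matrix (Nb Q w v D) _ A)ᵀ ^ (Fintype.card (Bas Q D) + 1) = 0 := by
  have h1 : ∀ a, d a ≤ Fintype.card (Bas Q D) := fun a => by
    rw [← card_range (d a), ← card_univ]
    refine (card_le_card (t := univ.image fun τ => (lab τ).2) fun k hk => ?_).trans card_image_le
    obtain ⟨τ, e⟩ := hl.surj a k (mem_range.1 hk)
    exact mem_image.2 ⟨τ, mem_univ _, by rw [e]⟩
  have h2 : ∀ p : Nb Q w v D, 0 ≤ lv d lab p ∧ lv d lab p ≤ Fintype.card (Bas Q D) := by
    rintro (τ | a | b)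
    · have := hl.lt τ
      have := h1 (lab τ).1
      simp only [lv]
      omega
    · have := h1 a
      simp only [lv]
      omega
    · simp only [lv]
      omega
  ext p q
  refine mem_zS.1 ((hm_a0T (x := lv d lab) (s := 1) gr_zS fun p q e =>
    (al0_data hl (Equiv.refl _) e).2.1).pow gr_zS _ p q) ?_
  have := h2 p
  have := h2 q
  simp only [smul_neg, nsmul_eq_mul]
  push_cast
  omega

theorem a0T_inr (M : Matrix (Nb Q w v D) (Nb Q w v D) A) (b : Bas Q v ⊕ Bas Q w) :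
    ((a0 lab : Matrix _ _ A)ᵀ * M : Matrix _ _ A) (.inr b) q = 0 := by
  rw [Matrix.mul_apply]
  refine sum_eq_zero fun r _ => ?_
  rw [Matrix.transpose_apply, a0, Matrix.map_apply, al0, map_zero, zero_mul]

theorem a0T_inl (hl : IsLab d lab) (M : Matrix (Nb Q w v D) (Nb Q w v D) A) {τ : Bas Q D}
    (h : hp lab p = some (lab τ)) :
    ((a0 lab : Matrix _ _ A)ᵀ * M : Matrix _ _ A) (.inl τ) q = M p q := by
  rw [Matrix.mul_apply, sum_eq_single p (fun r _ e => ?_) (by simp)]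
  · rw [Matrix.transpose_apply, a0, Matrix.map_apply, al0, if_pos h, map_one, one_mul]
  · rw [Matrix.transpose_apply, a0, Matrix.map_apply, al0, if_neg fun e' => e (hp_inj hl e' h),
      map_zero, zero_mul]

omit [Algebra ℂ A] in
theorem mul_eT (M : Matrix (Nb Q w v D) (Nb Q w v D) A) :
    (M * (eT : Matrix (Nb Q w v D) _ A) : Matrix _ _ A) p q = if blk q = 0 then M p q else 0 := by
  rw [eT, Matrix.mul_diagonal, mul_ite, mul_one, mul_zero]

omit [Algebra ℂ A] in
theorem eT_mul (M : Matrix (Nb Q w v D) (Nb Q w v D) A) :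
    ((eT : Matrix (Nb Q w v D) _ A) * M : Matrix _ _ A) p q = if blk p = 0 then M p q else 0 := by
  rw [eT, Matrix.diagonal_mul, ite_mul, one_mul, zero_mul]

theorem radF_blk (h : shape radF kc p q) : blk q = 1 := by
  obtain ⟨⟨-, -, h1⟩, h2 | ⟨a, b, -, rfl, -⟩⟩ := h
  · omega
  · rfl

theorem shape_FP {k : Kd Q} (h : shape radF k p q) : shape radP k p q := by
  rcases k with (ε | _ | _) | (ε | _ | _)
  all_goals first
    | exact h
    | exact ⟨h.1, fun e => absurd ((radF_blk h).symm.trans e) one_ne_zero⟩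

theorem shS_of {k : Kd Q} (h1 : k ≠ ka) (h2 : k ≠ kc) (h : shape radP k p q) : shS lab k p q := by
  refine ⟨?_, fun e => absurd e h1⟩
  rcases k with (ε | _ | _) | (ε | _ | _)
  all_goals first
    | exact h
    | exact absurd rfl h2

theorem ka_zero (hl : IsLab d lab) (h : ¬ shape radP ka p q) : YS lab y ka p q = 0 := by
  rw [YS_ka, Matrix.add_apply, bs_neg fun e => h (shape_FP e.1), a0, Matrix.map_apply,
    of_not_not fun e => h (al0_data hl (Equiv.refl _) e).1, map_zero, add_zero]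

theorem ka_eT (hl : IsLab d lab) : YS lab y ka * eT = YS lab y ka := by
  ext p q
  rw [mul_eT]
  split_ifs with e
  · rfl
  · exact (ka_zero hl fun h => e h.2).symm

omit [Algebra ℂ A] in
theorem kc_eT : bs lab y kc * eT = 0 := by
  ext p q
  rw [mul_eT]
  split_ifs with e
  · exact bs_neg fun h => one_ne_zero ((radF_blk h.1).symm.trans e)
  · rfl

theorem eT_a0T : eT * (a0 lab : Matrix (Nb Q w v D) _ A)ᵀ = (a0 lab)ᵀ := by
  ext p q
  rw [eT_mul]
  rcases p with τ | b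
  · rfl
  · rw [Matrix.transpose_apply, a0, Matrix.map_apply, al0, map_zero, ite_self]

theorem a0T_ka (hl : IsLab d lab) : (a0 lab)ᵀ * YS lab y ka = eT := by
  ext p q
  rcases p with τ | b
  · obtain ⟨p, h⟩ := exists_pr (w := w) hl τ
    have h1 : ¬ top lab p := fun e => one_ne_zero ((if_pos h).symm.trans (e (.inl τ)))
    rw [a0T_inl hl _ h, YS_ka, Matrix.add_apply, bs_neg fun e => h1 (e.2 rfl), add_zero, a0,
      Matrix.map_apply, eT, Matrix.diagonal_apply]
    rcases q with τ' | b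
    · by_cases e : τ = τ'
      · rw [← e, al0, if_pos h, if_pos rfl, map_one]
        rfl
      · rw [al0, if_neg fun e' => e (hl.inj (Option.some.inj (h.symm.trans e'))),
          if_neg fun e' => e (Sum.inl.inj e'), map_zero]
    · rw [al0, if_neg Sum.inl_ne_inr, map_zero]
  · rw [a0T_inr, eT, Matrix.diagonal_apply, if_neg (c := blk _ = 0), ite_self]
    rcases b with b | b <;> simp [blk]

theorem kc_eq (hl : IsLab d lab) :
    YS lab y kc = bs lab y kc + (a0 lab)ᵀ * YS lab y kc * YS lab y ka := by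
  have h : (a0 lab)ᵀ * YS lab y kc * YS lab y ka = ∑ i ∈ range (Fintype.card (Bas Q D) + 1),
      (a0 lab)ᵀ ^ (i + 1) * bs lab y kc * YS lab y ka ^ (i + 1) := by
    rw [YS_kc, mul_sum, sum_mul]
    refine sum_congr rfl fun i _ => ?_
    rw [pow_succ', pow_succ]
    noncomm_ring
  rw [h, sum_range_succ, a0T_pow hl, zero_mul, zero_mul, add_zero, YS_kc, sum_range_succ',
    pow_zero, pow_zero, one_mul, mul_one, add_comm]

theorem kc_col (hl : IsLab d lab) (h : blk q ≠ 0) : YS lab y kc p q = bs lab y kc p q := by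
  rw [kc_eq hl, Matrix.add_apply, ← ka_eT hl, ← mul_assoc, mul_eT, if_neg h, add_zero]

theorem kc_row (hl : IsLab d lab) (h : blk p ≠ 0) : YS lab y kc p q = bs lab y kc p q := by
  rw [kc_eq hl, Matrix.add_apply, ← eT_a0T, mul_assoc, mul_assoc, eT_mul, if_neg h, add_zero]

theorem vd_YS (hl : IsLab d lab) :
    Hm (zS A) (fun p => ((vx p : ℕ) : ℤ)) 0 (YS lab y ka) ∧
      Hm (zS A) (fun p => ((vx p : ℕ) : ℤ)) 0 (YS lab y kc) := by
  have h0 : ∀ p q : Nb Q w v D, al0 lab p q ≠ 0 → ((vx q : ℕ) : ℤ) - (vx p : ℕ) + 0 = 0 :=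
    fun p q e => by rw [(al0_data hl (Equiv.refl _) e).1.1.1, sub_self, add_zero]
  have h1 : ∀ (b : Bool) (p q : Nb Q w v D) (m : A), arrow (.inr b) p q →
      m ∈ zS A (((vx q : ℕ) : ℤ) - (vx p : ℕ) + 0) := fun b p q m e =>
    mem_zS.2 fun e' => absurd (by rw [e.1, sub_self, add_zero]) e'
  exact ⟨hm_ka gr_zS h0 fun p q e => h1 _ p q _ e.1.1,
    hm_kc gr_zS h0 (fun p q e => h1 _ p q _ e.1.1) fun p q e => h1 _ p q _ e.1.1⟩

theorem vd_zero {M : Matrix (Nb Q w v D) (Nb Q w v D) A}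
    (h : Hm (zS A) (fun p => ((vx p : ℕ) : ℤ)) 0 M) (e : vx p ≠ vx q) : M p q = 0 :=
  mem_zS.1 (h p q) fun e' => e (Fin.ext (by simp only at e'; omega))

theorem YS_zero (hl : IsLab d lab) (k : Kd Q) (p q : Nb Q w v D) (h : ¬ shape radP k p q) :
    YS lab y k p q = 0 := by
  by_cases h1 : k = ka
  · rw [h1] at h ⊢
    exact ka_zero hl h
  by_cases h2 : k = kc
  · rw [h2] at h ⊢
    have h3 : bs lab y kc p q = 0 := bs_neg fun e => h (shape_FP e.1)
    by_cases e1 : blk p = 0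
    · by_cases e2 : blk q = 0
      · exact vd_zero (vd_YS hl).2 fun e => h ⟨⟨e, by omega, by omega⟩, fun _ => e1⟩
      · rw [kc_col hl e2, h3]
    · rw [kc_row hl e1, h3]
  rw [YS_ne h1 h2, bs_neg fun e => h (shape_FP e.1)]

theorem blk_lt (p : Nb Q w v D) : blk p = 0 ∨ blk p = 1 ∨ blk p = 2 := by
  rcases p with a | a | a
  · exact Or.inl rfl
  · exact Or.inr (Or.inl rfl)
  · exact Or.inr (Or.inr rfl)

theorem kc_sq (hl : IsLab d lab) (hq : blk q ≠ 0) (h : ¬ shS lab kc p q) :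
    (YS lab y kc * YS lab y kc) p q = 0 := by
  rw [Matrix.mul_apply]
  refine sum_eq_zero fun r _ => ?_
  by_cases e : shS lab kc r q
  swap
  · rw [kc_col hl hq, bs_neg e, mul_zero]
  by_cases e1 : blk r = 0
  · rw [YS_zero hl kc p r fun e' => h ⟨⟨⟨e'.1.1.trans e.1.1.1, e'.1.2.1, e.1.1.2.2⟩,
      Or.inl ?_⟩, fun e => absurd e Sum.inr_ne_inl⟩, zero_mul]
    rw [e'.2 e1]
    omega
  rw [kc_col hl e1, bs_neg (k := kc) fun e' => h ⟨⟨⟨e'.1.1.1.trans e.1.1.1, e'.1.1.2.1,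
    e.1.1.2.2⟩, ?_⟩, fun e => absurd e Sum.inr_ne_inl⟩, zero_mul]
  have h1 := radF_blk e.1
  have h2 := radF_blk e'.1
  obtain h3 | ⟨a, b, rfl, rfl, h3⟩ := e'.1.2
  · exact Or.inl (by omega)
  obtain h4 | ⟨a', b', h5, rfl, h4⟩ := e.1.2
  · omega
  obtain rfl : b = a' := Sum.inl.inj (Sum.inr.inj h5)
  exact Or.inr ⟨a, b', rfl, rfl, h4.trans h3⟩

variable {δ : A} (hl : IsLab d lab) (hd : ∀ k p q, shS lab k p q →
  (if k.isRight then δ * y k p q + y k p q * δ else δ * y k p q - y k p q * δ) =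
    Phi Q (YS lab y) k p q)
include hl hd

theorem d_ka : Matrix.diagonal (fun _ => δ) * YS lab y ka - YS lab y ka * .diagonal (fun _ => δ) =
    (YS lab y ka * YS lab y kc - YS lab y kc * YS lab y ka) * eT := by
  ext p q
  rw [Matrix.sub_apply, Matrix.diagonal_mul, Matrix.mul_diagonal, mul_eT]
  split_ifs with e
  swap
  · rw [ka_zero hl fun h => e h.2, mul_zero, zero_mul, sub_zero]
  rw [YS_ka, Matrix.add_apply, a0, Matrix.map_apply, mul_add, add_mul, Algebra.commutes,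
    add_sub_add_left_eq_sub, ← a0, ← YS_ka]
  by_cases h : shS lab ka p q
  · rw [bs_pos h]
    exact hd ka p q h
  rw [bs_neg h, mul_zero, zero_mul, sub_zero]
  symm
  by_cases h1 : top lab p
  · by_cases h2 : vx p = vx q
    · have h3 : blk p = 2 := by
        by_contra h3
        have := blk_lt p
        exact h ⟨⟨⟨h2, by omega, by omega⟩, e⟩, fun _ => h1⟩
      rw [Matrix.sub_apply, Matrix.mul_apply, Matrix.mul_apply, sum_eq_zero fun r _ => ?_,
        sum_eq_zero fun r _ => ?_, sub_zero]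
      · rw [YS_zero hl kc p r fun e' => absurd e'.1.2.1 (by omega), zero_mul]
      · rw [YS_zero hl ka p r fun e' => absurd e'.1.2.1 (by omega), zero_mul]
    · exact vd_zero ((((vd_YS hl).1.mul gr_zS (vd_YS hl).2 rfl)).sub
        ((vd_YS hl).2.mul gr_zS (vd_YS hl).1 rfl)) h2
  obtain ⟨q', h2⟩ := not_forall.1 h1
  obtain ⟨τ, rfl, h3⟩ := al0_ne h2
  refine (a0T_inl hl _ h3).symm.trans ?_
  rw [mul_sub, ← mul_assoc, a0T_ka hl, ← mul_assoc, Matrix.sub_apply, eT_mul,
    if_pos (c := blk _ = 0) rfl, sub_eq_zero]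
  conv_lhs => rw [kc_eq hl]
  rw [Matrix.add_apply, bs_neg fun h => one_ne_zero ((radF_blk h.1).symm.trans e), zero_add]

theorem d_kc : Matrix.diagonal (fun _ => δ) * YS lab y kc + YS lab y kc * .diagonal (fun _ => δ) +
    YS lab y kc * YS lab y kc = 0 := by
  refine ring_delta (a0T_pow hl) (kc_eq hl) kc_eT (ka_eT hl) eT_a0T ?_ ?_ (d_ka hl hd) ?_
  · ext p q
    rw [Matrix.diagonal_mul, Matrix.mul_diagonal]
    exact (Algebra.commutes _ _).symm
  · ext p q
    rw [mul_eT, eT_mul, Matrix.diagonal_apply]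
    by_cases e : p = q
    · rw [e]
    · rw [if_neg e, ite_self, ite_self]
  ext p q
  rw [mul_eT]
  split_ifs with e
  · rfl
  rw [Matrix.add_apply, Matrix.add_apply, Matrix.diagonal_mul, Matrix.mul_diagonal, kc_col hl e]
  by_cases h : shS lab kc p q
  · rw [bs_pos h, show δ * y kc p q + y kc p q * δ = _ from hd kc p q h]
    exact (neg_add_cancel _).symm
  · rw [bs_neg h, kc_sq hl e h, mul_zero, zero_mul, add_zero, add_zero]

theorem d_YS (k : Kd Q) (p q : Nb Q w v D) (h : shape radP k p q) :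
    (if k.isRight then δ * YS lab y k p q + YS lab y k p q * δ
      else δ * YS lab y k p q - YS lab y k p q * δ) = Phi Q (YS lab y) k p q := by
  by_cases h1 : k = ka
  · subst h1
    have := congrFun (congrFun (d_ka hl hd) p) q
    rw [Matrix.sub_apply, Matrix.diagonal_mul, Matrix.mul_diagonal, mul_eT, if_pos h.2] at this
    exact this
  by_cases h2 : k = kc
  · subst h2
    have := congrFun (congrFun (d_kc hl hd) p) q
    rw [Matrix.add_apply, Matrix.add_apply, Matrix.diagonal_mul, Matrix.mul_diagonal] at this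
    exact eq_neg_of_add_eq_zero_left this
  rw [YS_ne h1 h2, bs_pos (shS_of h1 h2 h)]
  exact hd k p q (shS_of h1 h2 h)

omit hd in
theorem tr_sq {m : Bas Q D → ℤ} (hm : ∀ τ τ', τ.1 = τ'.1 → m τ = m τ')
    (h : ∀ p q r s, YS lab y kc p q * YS lab y kc r s = -(YS lab y kc r s * YS lab y kc p q)) :
    ∑ τ, (m τ : ℂ) • (YS lab y kc * YS lab y kc) (.inl τ) (.inl τ) = 0 := by
  have h1 : ∀ τ, (m τ : ℂ) • (YS lab y kc * YS lab y kc) (.inl τ) (.inl τ) =
      ∑ τ', (m τ : ℂ) • (YS lab y kc (.inl τ) (.inl τ') * YS lab y kc (.inl τ') (.inl τ)) :=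
    fun τ => by
      rw [Matrix.mul_apply, Fintype.sum_sum_type, sum_eq_zero (s := (univ : Finset (_ ⊕ _))),
        add_zero, smul_sum]
      intro b _
      rw [YS_zero hl kc (.inr b) _ fun e => ?_, mul_zero]
      have := e.2 rfl
      rcases b with b | b <;> simp [blk] at this
  simp only [h1]
  have h2 : ∑ τ, ∑ τ', (m τ : ℂ) • (YS lab y kc (.inl τ) (.inl τ') * YS lab y kc (.inl τ') (.inl τ))
      = -∑ τ, ∑ τ', (m τ : ℂ) •
        (YS lab y kc (.inl τ) (.inl τ') * YS lab y kc (.inl τ') (.inl τ)) := by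
    refine sum_comm.trans ?_
    rw [← sum_neg_distrib]
    refine sum_congr rfl fun τ _ => ?_
    rw [← sum_neg_distrib]
    refine sum_congr rfl fun τ' _ => ?_
    rw [h (.inl τ') (.inl τ), smul_neg]
    by_cases e : τ'.1 = τ.1
    · rw [hm _ _ e]
    · rw [vd_zero (p := .inl τ') (q := .inl τ) (vd_YS hl).2 e, mul_zero, smul_zero, smul_zero]
  rw [eq_neg_iff_add_eq_zero, ← two_smul ℂ] at h2
  exact (smul_eq_zero.1 h2).resolve_left two_ne_zero

theorem d_om {m : Bas Q D → ℤ} (hm : ∀ τ τ', τ.1 = τ'.1 → m τ = m τ')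
    (h : ∀ p q r s, YS lab y kc p q * YS lab y kc r s = -(YS lab y kc r s * YS lab y kc p q)) :
    δ * -∑ τ, (m τ : ℂ) • YS lab y kc (.inl τ) (.inl τ) +
      (-∑ τ, (m τ : ℂ) • YS lab y kc (.inl τ) (.inl τ)) * δ = 0 := by
  rw [mul_neg, neg_mul, ← neg_add, mul_sum, sum_mul, ← sum_add_distrib, ← tr_sq hl hm h,
    ← sum_neg_distrib]
  refine sum_congr rfl fun τ _ => ?_
  have h3 := d_YS hl hd kc (.inl τ) (.inl τ)
    ⟨⟨rfl, Nat.zero_lt_two, Nat.zero_lt_two⟩, fun _ => rfl⟩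
  rw [mul_smul_comm, smul_mul_assoc, ← smul_add, ← smul_neg]
  exact congrArg _ (neg_eq_iff_eq_neg.2 h3)

end Pool.Agent.MP_8be872_ag.H89
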